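import Pool.Agent.Run7.h142.LT.Rig
import Pool.Agent.Run7.h142.JT.Disc
import Pool.Agent.TH121.KT.Orbit

/-!
# Discriminants and rigid pairs over a field (helper142)
-/

set_option autoImplicit false
set_option linter.unusedSectionVars false

namespace Pool.Agent.Run7.h142.LT

open NumberField Module Pool.Agent.H204R3.CM Pool.Agent.H194R3.CM Pool.Agent.H977R3.CM
  Pool.Agent.W527 Pool.Agent.Run7.h142.JT

open Pool.Agent.TH121.KT (Qb)

/-- A Galois extension through which all embeddings factor. -/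
theorem exists_gal {ι : Type*} [Fintype ι] (E : ι → Type*) [∀ i, Field (E i)]
    [∀ i, NumberField (E i)] :
    ∃ (L : IntermediateField ℚ Qb) (_ : NumberField L) (_ : IsGalois ℚ L),
      ∀ i, ∀ ψ : E i →+* Qb, ∃ φ : E i →+* L, (algebraMap L Qb).comp φ = ψ := by
  classical
  have _ : Algebra.IsAlgebraic ℚ Qb := AlgebraicClosure.isAlgebraic ℚ
  have _ : IsAlgClosure ℚ Qb := ⟨inferInstance, inferInstance⟩
  have _ : Normal ℚ Qb := IsAlgClosure.normal ℚ Qb
  let L : IntermediateField ℚ Qb := ⨆ i, IntermediateField.normalClosure ℚ (E i) Qb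
  have _ : FiniteDimensional ℚ L := IntermediateField.finiteDimensional_iSup_of_finite
  have _ : Normal ℚ L := IntermediateField.normal_iSup
    (h := fun i => normalClosure.normal ℚ (E i) Qb)
  have hNF : NumberField L := NumberField.mk
  refine ⟨L, hNF, ⟨⟩, fun i φ => ?_⟩
  let φ' : E i →ₐ[ℚ] Qb := RingHom.equivRatAlgHom (E i) Qb φ
  have hle : φ'.fieldRange ≤ L :=
    (AlgHom.fieldRange_le_normalClosure φ').trans
      (le_iSup (fun i => IntermediateField.normalClosure ℚ (E i) Qb) i)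
  let φL : E i →+* L :=
    { toFun := fun x => ⟨φ x, hle ⟨x, rfl⟩⟩
      map_one' := Subtype.ext (map_one φ)
      map_mul' := fun a b => Subtype.ext (map_mul φ a b)
      map_zero' := Subtype.ext (map_zero φ)
      map_add' := fun a b => Subtype.ext (map_add φ a b) }
  exact ⟨φL, rfl⟩

/-- The family with one more field. -/
def OF (F : Type) {κ : Type} (E : κ → Type) : Option κ → Type
  | none => F
  | some k => E k

instance instFieldOF (F : Type) [Field F] {κ : Type} (E : κ → Type) [∀ k, Field (E k)] :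
    ∀ o, Field (OF F E o)
  | none => inferInstanceAs (Field F)
  | some k => inferInstanceAs (Field (E k))

instance instNumOF (F : Type) [Field F] [NumberField F] {κ : Type} (E : κ → Type)
    [∀ k, Field (E k)] [∀ k, NumberField (E k)] : ∀ o, NumberField (OF F E o)
  | none => inferInstanceAs (NumberField F)
  | some k => inferInstanceAs (NumberField (E k))

variable {κ : Type} [Fintype κ] {E : κ → Type} [∀ k, Field (E k)] [∀ k, NumberField (E k)]
  [∀ k, IsCMField (E k)]


/-- An element of the Galois group which moves one pair of embeddings. -/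
theorem exists_pair_move {F : Type} [Field F] [NumberField F] {M : Type} [Field M]
    [NumberField M] [IsGalois ℚ M] (l : κ) (ψ : E l →+* M) {ℓ : ℕ} (hℓ : ℓ.Prime)
    (hd : (ℓ : ℤ) ∣ discr (E l)) (hn : ¬ (ℓ : ℤ) ^ 2 ∣ discr F * ∏ l, discr (E l)) :
    ∃ σ : M ≃ₐ[ℚ] M, σ • ψ = cbar ψ ∧ (∀ φ : F →+* M, σ • φ = φ) ∧
      ∀ (k : κ) (φ : E k →+* M), (⟨k, φ⟩ : Σ k, (E k →+* M)) ≠ ⟨l, ψ⟩ →
        (⟨k, φ⟩ : Σ k, (E k →+* M)) ≠ ⟨l, cbar ψ⟩ → σ • φ = φ := by
  classical
  obtain ⟨σ, ⟨χ, hχ⟩, h3⟩ := exists_small_one (F := OF F E) (L := M) Finset.univ (some l)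
    (Finset.mem_univ _) ⟨ψ⟩ ℓ hℓ hd
  change E l →+* M at χ
  change σ • χ ≠ χ at hχ
  have h4 : moved (OF F E) Finset.univ σ < 4 := by
    refine h3 2 ?_
    rw [Fintype.prod_option]
    exact hn
  have h5 : Nat.card {φ : F →+* M // σ • φ ≠ φ} + moved E Finset.univ σ < 4 := by
    unfold moved at h4 ⊢
    rw [Fintype.sum_option] at h4
    exact h4
  have hbar : σ • cbar χ ≠ cbar χ := by
    intro h6
    apply hχ
    have h7 : cbar (σ • χ) = cbar χ := h6
    have h8 := congrArg cbar h7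
    rw [cbar_cbar, cbar_cbar] at h8
    exact h8
  have h6 : 1 < Nat.card {φ : E l →+* M // σ • φ ≠ φ} := by
    have : Nontrivial {φ : E l →+* M // σ • φ ≠ φ} :=
      ⟨⟨χ, hχ⟩, ⟨cbar χ, hbar⟩, fun h => cbar_ne χ (congrArg Subtype.val h).symm⟩
    exact Finite.one_lt_card
  have h7 : Nat.card {φ : E l →+* M // σ • φ ≠ φ} ≤ moved E Finset.univ σ :=
    Finset.single_le_sum (f := fun i => Nat.card {φ : E i →+* M // σ • φ ≠ φ})
      (fun _ _ => Nat.zero_le _) (Finset.mem_univ l)
  have h8 : ∀ φ : F →+* M, σ • φ = φ := by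
    intro φ
    by_contra hφ
    have h9 : σ • (σ • φ) ≠ σ • φ := by
      intro h10
      apply hφ
      have := congrArg (fun η => σ⁻¹ • η) h10
      simpa using this
    have h10 : 1 < Nat.card {φ : F →+* M // σ • φ ≠ φ} := by
      have : Nontrivial {φ : F →+* M // σ • φ ≠ φ} :=
        ⟨⟨σ • φ, h9⟩, ⟨φ, hφ⟩, fun h => hφ (congrArg Subtype.val h)⟩
      exact Finite.one_lt_card
    omega
  have h9 : moved E Finset.univ σ < 4 := by omega
  have h10 : σ • χ = cbar χ := by
    have h11 : σ • (σ • χ) ≠ σ • χ := by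
      intro h12
      apply hχ
      have := congrArg (fun η => σ⁻¹ • η) h12
      simpa using this
    rcases only_pair h9 hχ h11 with h12 | h12
    · exact absurd (eq_of_heq (Sigma.mk.inj h12).2) hχ
    · exact eq_of_heq (Sigma.mk.inj h12).2
  obtain ⟨g, rfl⟩ := MulAction.exists_smul_eq (M ≃ₐ[ℚ] M) χ ψ
  refine ⟨g * σ * g⁻¹, ?_, fun φ => ?_, fun k φ h1 h2 => ?_⟩
  · rw [mul_smul, mul_smul, inv_smul_smul, h10]
    rfl
  · rw [mul_smul, mul_smul, h8, smul_inv_smul]
  · have h11 : σ • (g⁻¹ • φ) = g⁻¹ • φ := by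
      by_contra hne
      rcases only_pair h9 hχ hne with h12 | h12
      · obtain ⟨e1, e2⟩ := Sigma.mk.inj h12
        subst e1
        have e3 := eq_of_heq e2
        apply h1
        rw [← e3, smul_inv_smul]
      · obtain ⟨e1, e2⟩ := Sigma.mk.inj h12
        subst e1
        have e3 := eq_of_heq e2
        apply h2
        have e4 : φ = cbar (g • χ) := by
          change φ = g • cbar χ
          rw [← e3, smul_inv_smul]
        rw [e4]
    rw [mul_smul, mul_smul, h11, smul_inv_smul]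

/-- **Discriminants.** -/
theorem noRigidPairsOver_of_discr (F : Type) [Field F] [NumberField F]
    (h : ∀ k, ∃ ℓ : ℕ, ℓ.Prime ∧ (ℓ : ℤ) ∣ discr (E k) ∧
      ¬ (ℓ : ℤ) ^ 2 ∣ discr F * ∏ l, discr (E l)) {L : IntermediateField ℚ Qb}
    (hL : L ≤ IntermediateField.normalClosure ℚ F Qb) : NoRigidPairsOver E L := by
  classical
  have _ : Algebra.IsAlgebraic ℚ Qb := AlgebraicClosure.isAlgebraic ℚ
  have _ : IsAlgClosure ℚ Qb := ⟨inferInstance, inferInstance⟩
  have _ : Normal ℚ Qb := IsAlgClosure.normal ℚ Qb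
  obtain ⟨M, _, _, hM⟩ := exists_gal (OF F E)
  have key : ∀ y : Σ l, (E l →+* Qb), ∃ g : Qb ≃ₐ[ℚ] Qb, (∀ z ∈ L, g z = z) ∧
      (∀ z, g (y.2 z) = y.2 (IsCMField.complexConj (E y.1) z)) ∧
      ∀ x : Σ l, (E l →+* Qb), x ≠ y →
        x ≠ ⟨y.1, y.2.comp (IsCMField.complexConj (E y.1) : E y.1 →+* E y.1)⟩ →
        ∀ z, g (x.2 z) = x.2 z := by
    rintro ⟨l, ψ⟩
    obtain ⟨ψ, rfl⟩ := hM (some l) ψ
    change E l →+* M at ψ
    obtain ⟨ℓ, hℓ, hd, hn⟩ := h l
    obtain ⟨σ, h1, h2, h3⟩ := exists_pair_move (F := F) (M := M) l ψ hℓ hd hn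
    let g : Qb ≃ₐ[ℚ] Qb := AlgEquiv.liftNormal σ Qb
    have hg : ∀ x : M, g (algebraMap M Qb x) = algebraMap M Qb (σ x) := fun x =>
      AlgEquiv.liftNormal_commutes σ Qb x
    refine ⟨g, ?_, fun z => ?_, ?_⟩
    · intro z hz
      have h4 : IntermediateField.normalClosure ℚ F Qb ≤
          IntermediateField.fixedField (Subgroup.zpowers g) := by
        refine iSup_le fun u => ?_
        rintro _ ⟨y, rfl⟩
        obtain ⟨φ, hφ⟩ := hM none (u : F →+* Qb)
        change F →+* M at φ
        have h5 : g (u y) = u y := by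
          have h6 : u y = algebraMap M Qb (φ y) := (RingHom.congr_fun hφ y).symm
          rw [h6, hg]
          have h7 := RingHom.congr_fun (h2 φ) y
          change σ (φ y) = φ y at h7
          rw [h7]
        rw [IntermediateField.mem_fixedField_iff]
        intro m hm
        have h6 : Subgroup.zpowers g ≤ MulAction.stabilizer (Qb ≃ₐ[ℚ] Qb) (u y) := by
          rw [Subgroup.zpowers_le]
          exact h5
        exact h6 hm
      exact (IntermediateField.mem_fixedField_iff _ _).1 (h4 (hL hz)) g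
        (Subgroup.mem_zpowers g)
    · change g (algebraMap M Qb (ψ z)) = algebraMap M Qb (ψ (IsCMField.complexConj (E l) z))
      rw [hg]
      have h7 := RingHom.congr_fun h1 z
      change σ (ψ z) = ψ (IsCMField.complexConj (E l) z) at h7
      rw [h7]
    · rintro ⟨k, φ⟩ h4 h5 z
      obtain ⟨φ, rfl⟩ := hM (some k) φ
      change E k →+* M at φ
      change g (algebraMap M Qb (φ z)) = algebraMap M Qb (φ z)
      rw [hg]
      have h6 := h3 k φ ?_ ?_
      · have h7 := RingHom.congr_fun h6 z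
        change σ (φ z) = φ z at h7
        rw [h7]
      · intro h7
        apply h4
        obtain ⟨e1, e2⟩ := Sigma.mk.inj h7
        subst e1
        rw [eq_of_heq e2]
      · intro h7
        apply h5
        obtain ⟨e1, e2⟩ := Sigma.mk.inj h7
        subst e1
        rw [eq_of_heq e2]
        rfl
  refine NoRigidPairsOver.of (fun y => ?_) (fun x y h1 h2 => ?_)
  · obtain ⟨g, h1, h2, -⟩ := key y
    exact ⟨g, h1, h2⟩
  · obtain ⟨g, h3, h4, h5⟩ := key y
    refine ⟨g, h3, h5 x (Ne.symm h1) ?_, h4⟩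
    intro h6
    apply h2
    obtain ⟨k, x⟩ := x
    obtain ⟨l, y⟩ := y
    obtain ⟨e1, e2⟩ := Sigma.mk.inj h6
    subst e1
    have e3 := eq_of_heq e2
    congr 1
    ext z
    rw [e3]
    change y z = y (IsCMField.complexConj (E k) (IsCMField.complexConj (E k) z))
    rw [IsCMField.complexConj_apply_apply]

end Pool.Agent.Run7.h142.LT
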