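import Mathlib

/-!
# Several Weil numbers of even weight in each of several CM fields: definitions (helper142)
-/

set_option autoImplicit false

namespace Pool.Agent.Run7.h142.LT

open NumberField

/-- The embeddings of the fields `E k` into the algebraic closure of `ℚ`. -/
abbrev Emb {κ : Type} (E : κ → Type) [∀ k, Field (E k)] : Type :=
  Σ k, (E k →+* AlgebraicClosure ℚ)

/-- The complex conjugation of a CM field. -/
noncomputable def cc (F : Type) [Field F] [NumberField F] [IsCMField F] : F →+* F :=
  (IsCMField.complexConj F).toAlgHom.toRingHom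

/-- The complex conjugate of an embedding of a CM field. -/
noncomputable def conj {κ : Type} {E : κ → Type} [∀ k, Field (E k)] [∀ k, NumberField (E k)]
    [∀ k, IsCMField (E k)] (x : Emb E) : Emb E :=
  ⟨x.1, x.2.comp (cc (E x.1))⟩

/-- The composition of an embedding with an automorphism of the algebraic closure. -/
noncomputable def movedBy {κ : Type} {E : κ → Type} [∀ k, Field (E k)]
    (h : AlgebraicClosure ℚ ≃ₐ[ℚ] AlgebraicClosure ℚ) (x : Emb E) : Emb E :=
  ⟨x.1, h.toAlgHom.toRingHom.comp x.2⟩

/-- The CM fields `E k` have no rigid pairs of embeddings over the field `L` of algebraic numbers: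
for each embedding `x` of `E k` into the algebraic closure of `ℚ` some automorphism of the algebraic
closure is the identity on `L` and maps `x` to its complex conjugate; and if `y` is an embedding of
`E l` which is neither `x` nor its complex conjugate, then some automorphism is the identity on `L`,
fixes `x` and maps `y` to its complex conjugate. -/
structure NoRigidPairsOver {κ : Type} (E : κ → Type) [∀ k, Field (E k)] [∀ k, NumberField (E k)]
    [∀ k, IsCMField (E k)] (L : IntermediateField ℚ (AlgebraicClosure ℚ)) : Prop where
  one : ∀ x : Emb E, ∃ h : AlgebraicClosure ℚ ≃ₐ[ℚ] AlgebraicClosure ℚ,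
    (∀ z ∈ L, h z = z) ∧ movedBy h x = conj x
  two : ∀ x y : Emb E, y ≠ x → y ≠ conj x →
    ∃ h : AlgebraicClosure ℚ ≃ₐ[ℚ] AlgebraicClosure ℚ,
      (∀ z ∈ L, h z = z) ∧ movedBy h x = x ∧ movedBy h y = conj y

/-- The numbers `α i` in the fields `E (f i)` have complex absolute values one, and their `p`-adic
valuations are independent: for each `k` the functions `τ ↦ log |τ (α i)|` of the embeddings `τ` of
`E k` in the algebraic closure of `ℚ_p`, for the `i` with `f i = k`, are linearly independent over
`ℚ`. (This is stated for all fields at the same time: a relation which is true for all families of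
embeddings, one for each field, is trivial.) -/
structure IndependentValuations (p : ℕ) [Fact p.Prime] {κ : Type} {E : κ → Type}
    [∀ k, Field (E k)] {r : ℕ} (f : Fin r → κ) (α : ∀ i, E (f i)) : Prop where
  unitary : ∀ i (φ : E (f i) →+* ℂ), ‖φ (α i)‖ = 1
  indep : ∀ c : Fin r → ℤ, (∀ τ : (∀ k, E k →+* PadicAlgCl p),
    ∑ i, (c i : ℝ) * Real.log ‖τ (f i) (α i)‖ = 0) → c = 0

end Pool.Agent.Run7.h142.LT
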