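import Pool.Agent.TH121.KT.WordDefs
import Pool.Agent.W534.PoleDefs
import Pool.Agent.Run7.h142.LT.Defs

/-!
# Families of varieties with Weil numbers and their products: definitions (helper142)
-/

set_option autoImplicit false

open CategoryTheory AlgebraicGeometry NumberField

universe u v

namespace Pool.Agent.Run7.h142.LT

open Pool.Agent.H914 Pool.Agent.H914.VarClass Pool.Agent.H914.VarClass.Obj
  Pool.Agent.H914.WeilCohomology Pool.Agent.H281R3.HT Pool.Agent.W534 Pool.Agent.TH121.KT

/-- The vector `x` is an eigenvector of `f`, and its eigenvalue is, up to a root of unity, the product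
of `p ^ (n / 2)` and of an `e`-th root of `β`. -/
def IsWeilVector {F M : Type*} [Field F] [AddCommGroup M] [Module F M] (f : M → M) (p n e : ℕ)
    (β : F) (x : M) : Prop :=
  ∃ (μ : F) (N : ℕ), 0 < N ∧ f x = μ • x ∧ μ ^ (2 * e * N) = (p : F) ^ (n * (e * N)) * β ^ (2 * N)

/-- The space `M` is spanned by the subspace `A` and by eigenvectors of `f` in the subspace `G` whose
eigenvalues are, up to roots of unity, products of `p ^ (n / 2)` and of `e`-th roots of elements of
`B`. -/
def IsWeilSpanned {F M : Type*} [Field F] [AddCommGroup M] [Module F M] (A G : Submodule F M)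
    (f : M → M) (p n e : ℕ) (B : Set F) : Prop :=
  A ⊔ Submodule.span F {x | x ∈ G ∧ ∃ β ∈ B, IsWeilVector f p n e β x} = ⊤

/-- The cohomology of each of the varieties `X j` is spanned by classes of algebraic cycles and by
eigenvectors, in the middle degree `dim (X j)`, of the Frobenius endomorphism whose eigenvalues are,
up to roots of unity, `q ^ (dim (X j) / 2)` times `e j`-th roots of conjugates of the number
`α (c j)` (where `q = p ^ Φ.e (X j)`). If two of the varieties have the same Weil number, `c j = c j'`,
then this is true over the same finite field (`e j` times the degree over `𝔽_p` of the field of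
definition of the Frobenius endomorphism is the same number for `X j` and `X j'`), and their dimensions
have the same parity. -/
structure HasWeilNumbers {k : Type u} [Field k] {𝒱 : VarClass k} {ops : CycleOps 𝒱}
    {W : WeilCohomology.{u, v} ops} {p : ℕ} (Φ : FrobSystem W p) {r s : ℕ} {K : Fin r → Type}
    [∀ i, Field (K i)] (α : ∀ i, K i) (c : Fin s → Fin r) (X : Fin s → 𝒱.Obj)
    (e : Fin s → ℕ) : Prop where
  pos : ∀ j, 0 < e j
  spanned : ∀ j, IsWeilSpanned (algSpan W (X j)) (W.gr (X j) (X j).dim) (W.map (Φ.Fr (X j))) p
    (Φ.e (X j) * (X j).dim) (e j) (Set.range fun σ : K (c j) →+* W.K => σ (α (c j)))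
  level : ∀ j j', c j = c j' → e j * Φ.e (X j) = e j' * Φ.e (X j')
  parity : ∀ j j', c j = c j' → Even ((X j).dim + (X j').dim)

/-- The Tate conjecture, in the middle codimension, for the products `X j × X j'` of two of the
varieties with the same Weil number, `c j = c j'` (for instance `j = j'`). -/
def TateForPairs {k : Type u} [Field k] {𝒱 : VarClass k} {ops : CycleOps 𝒱}
    {W : WeilCohomology.{u, v} ops} {p : ℕ} (Φ : FrobSystem W p) {r s : ℕ}
    (c : Fin s → Fin r) (X : Fin s → 𝒱.Obj) : Prop :=
  ∀ j j', c j = c j' → TateIn Φ ((X j).prod (X j')) (((X j).dim + (X j').dim) / 2)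

/-- There is a cycle of codimension `i` on `Z` whose cohomology class is not zero. -/
def HasCycle {k : Type u} [Field k] {𝒱 : VarClass k} {ops : CycleOps 𝒱}
    (W : WeilCohomology.{u, v} ops) (Z : 𝒱.Obj) (i : ℕ) : Prop :=
  ∃ x, Z.IsCyc i x ∧ W.cl Z x ≠ 0

/-- Every vector is in the subspace. -/
def IsAll {F M : Type*} [Field F] [AddCommGroup M] [Module F M] (A : Submodule F M) : Prop :=
  ∀ x, x ∈ A

/-- `Z` is a product, with any bracketing, of any number of copies of the varieties `X j` and of
varieties whose cohomology is spanned by the classes of algebraic cycles (for example projective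
spaces, or the points). -/
inductive IsProduct {k : Type u} [Field k] {𝒱 : VarClass k} {ops : CycleOps 𝒱}
    (W : WeilCohomology.{u, v} ops) {s : ℕ} (X : Fin s → 𝒱.Obj) : 𝒱.Obj → Prop
  | alg {Y : 𝒱.Obj} : IsAll (algSpan W Y) → IsProduct W X Y
  | base (j : Fin s) : IsProduct W X (X j)
  | prod {Y Z : 𝒱.Obj} : IsProduct W X Y → IsProduct W X Z → IsProduct W X (Y.prod Z)

end Pool.Agent.Run7.h142.LT
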