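import Pool.Agent.Run7.h142.LT.Defs

/-!
# Rigid pairs in terms of elements (helper142)
-/

set_option autoImplicit false
set_option linter.unusedSectionVars false

namespace Pool.Agent.Run7.h142.LT

open NumberField

variable {κ : Type} {E : κ → Type} [∀ k, Field (E k)] [∀ k, NumberField (E k)]
  [∀ k, IsCMField (E k)] {L : IntermediateField ℚ (AlgebraicClosure ℚ)}

theorem movedBy_eq_iff (h : AlgebraicClosure ℚ ≃ₐ[ℚ] AlgebraicClosure ℚ) (k : κ)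
    (x y : E k →+* AlgebraicClosure ℚ) :
    movedBy (E := E) h ⟨k, x⟩ = ⟨k, y⟩ ↔ ∀ z, h (x z) = y z := by
  constructor
  · intro h1 z
    have h2 := eq_of_heq (Sigma.mk.inj h1).2
    exact RingHom.congr_fun h2 z
  · intro h1
    unfold movedBy
    congr 1
    ext z
    exact h1 z

theorem NoRigidPairsOver.single (hE : NoRigidPairsOver E L)
    (x : Σ k, (E k →+* AlgebraicClosure ℚ)) :
    ∃ h : AlgebraicClosure ℚ ≃ₐ[ℚ] AlgebraicClosure ℚ, (∀ z ∈ L, h z = z) ∧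
      ∀ z, h (x.2 z) = x.2 (IsCMField.complexConj (E x.1) z) := by
  obtain ⟨h, h1, h2⟩ := hE.one x
  exact ⟨h, h1, (movedBy_eq_iff h x.1 x.2 _).1 h2⟩

theorem NoRigidPairsOver.pair (hE : NoRigidPairsOver E L)
    (x y : Σ k, (E k →+* AlgebraicClosure ℚ)) (h1 : y ≠ x)
    (h2 : y ≠ ⟨x.1, x.2.comp (IsCMField.complexConj (E x.1) : E x.1 →+* E x.1)⟩) :
    ∃ h : AlgebraicClosure ℚ ≃ₐ[ℚ] AlgebraicClosure ℚ, (∀ z ∈ L, h z = z) ∧
      (∀ z, h (x.2 z) = x.2 z) ∧ ∀ z, h (y.2 z) = y.2 (IsCMField.complexConj (E y.1) z) := by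
  obtain ⟨h, h3, h4, h5⟩ := hE.two x y h1 h2
  exact ⟨h, h3, (movedBy_eq_iff h x.1 x.2 _).1 h4, (movedBy_eq_iff h y.1 y.2 _).1 h5⟩

theorem NoRigidPairsOver.of
    (single : ∀ x : Σ k, (E k →+* AlgebraicClosure ℚ),
      ∃ h : AlgebraicClosure ℚ ≃ₐ[ℚ] AlgebraicClosure ℚ, (∀ z ∈ L, h z = z) ∧
        ∀ z, h (x.2 z) = x.2 (IsCMField.complexConj (E x.1) z))
    (pair : ∀ x y : Σ k, (E k →+* AlgebraicClosure ℚ), y ≠ x →
      y ≠ ⟨x.1, x.2.comp (IsCMField.complexConj (E x.1) : E x.1 →+* E x.1)⟩ →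
      ∃ h : AlgebraicClosure ℚ ≃ₐ[ℚ] AlgebraicClosure ℚ, (∀ z ∈ L, h z = z) ∧
        (∀ z, h (x.2 z) = x.2 z) ∧ ∀ z, h (y.2 z) = y.2 (IsCMField.complexConj (E y.1) z)) :
    NoRigidPairsOver E L := by
  refine ⟨fun x => ?_, fun x y h1 h2 => ?_⟩
  · obtain ⟨h, h1, h2⟩ := single x
    exact ⟨h, h1, (movedBy_eq_iff h x.1 x.2 _).2 h2⟩
  · obtain ⟨h, h3, h4, h5⟩ := pair x y h1 h2
    exact ⟨h, h3, (movedBy_eq_iff h x.1 x.2 _).2 h4, (movedBy_eq_iff h y.1 y.2 _).2 h5⟩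

end Pool.Agent.Run7.h142.LT
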