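import Mathlib

/-!
# Constant sums over the translates of matrices of odd functions (helper142)

The same as `JT.Vanish` and `TF.VanishR`, with a constant on the right hand side, and for the
diagonal entries only.
-/

set_option autoImplicit false

namespace Pool.Agent.Run7.h142.LT

theorem vanishC {κ : Type*} [Fintype κ] {G : Type*} [Group G] [Fintype G]
    (Y : κ → Type*) [∀ k, Fintype (Y k)] [∀ k, MulAction G (Y k)]
    (inv : ∀ k, Y k → Y k) (hne : ∀ k x, inv k x ≠ x)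
    (hG : ∀ (g : G) k x, g • inv k x = inv k (g • x))
    (h1 : ∀ k (x : Y k), ∃ g : G, g • x = inv k x)
    (h : ∀ (p q : Σ k, Y k), q ≠ p → q ≠ ⟨p.1, inv p.1 p.2⟩ →
      ∃ g : G, g • p.2 = p.2 ∧ g • q.2 = inv q.1 q.2)
    (A : ∀ k, Y k → Y k → ℝ) (hA1 : ∀ k x y, A k (inv k x) y = -A k x y)
    (hA2 : ∀ k x y, A k x (inv k y) = -A k x y) (C : ℝ)
    (hrel : ∀ g : G, ∑ p : Σ k, Y k, A p.1 p.2 (g • p.2) = C) (k₀ : κ) (x₀ : Y k₀) :
    A k₀ x₀ x₀ = 0 := by
  classical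
  have key : ∀ y₀ : Y k₀, (∃ g : G, g • x₀ = y₀) → 2 * A k₀ x₀ y₀ = C := by
    intro y₀ ht
    let S : Finset G := Finset.univ.filter fun g => g • x₀ = y₀
    let F : (Σ k, Y k) → ℝ := fun p => ∑ g ∈ S, A p.1 p.2 (g • p.2)
    have h0 : ∑ p, F p = S.card * C := by
      have : ∑ g ∈ S, ∑ p : Σ k, Y k, A p.1 p.2 (g • p.2) = ∑ g ∈ S, C :=
        Finset.sum_congr rfl fun g _ => hrel g
      rw [Finset.sum_comm, Finset.sum_const, nsmul_eq_mul] at this
      exact this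
    have hz : ∀ p : Σ k, Y k, p ≠ ⟨k₀, x₀⟩ → p ≠ ⟨k₀, inv k₀ x₀⟩ → F p = 0 := by
      intro p hp1 hp2
      obtain ⟨s, hs1, hs2⟩ := h ⟨k₀, x₀⟩ p hp1 hp2
      have e1 : ∑ g ∈ S, A p.1 p.2 ((g * s) • p.2) = ∑ g ∈ S, A p.1 p.2 (g • p.2) := by
        refine Finset.sum_bij (fun g _ => g * s) ?_ ?_ ?_ ?_
        · intro g hg
          simp only [S, Finset.mem_filter, Finset.mem_univ, true_and] at hg ⊢
          rw [mul_smul, hs1, hg]
        · intro a _ b _ hab
          exact mul_right_cancel hab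
        · intro b hb
          refine ⟨b * s⁻¹, ?_, by group⟩
          simp only [S, Finset.mem_filter, Finset.mem_univ, true_and] at hb ⊢
          rw [mul_smul, ← hb]
          congr 1
          rw [inv_smul_eq_iff, hs1]
        · intro g _
          rfl
      have e2 : ∑ g ∈ S, A p.1 p.2 ((g * s) • p.2) = -∑ g ∈ S, A p.1 p.2 (g • p.2) := by
        rw [← Finset.sum_neg_distrib]
        refine Finset.sum_congr rfl fun g _ => ?_
        rw [mul_smul, hs2, hG, hA2]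
      have e3 : F p = -F p := e1.symm.trans e2
      linarith
    have hab : (⟨k₀, x₀⟩ : Σ k, Y k) ≠ ⟨k₀, inv k₀ x₀⟩ := by
      intro hh
      exact hne k₀ x₀ (eq_of_heq (Sigma.mk.inj hh).2).symm
    rw [Finset.sum_eq_add (⟨k₀, x₀⟩ : Σ k, Y k) ⟨k₀, inv k₀ x₀⟩ hab
      (fun p _ hp => hz p hp.1 hp.2) (fun hn => absurd (Finset.mem_univ _) hn)
      (fun hn => absurd (Finset.mem_univ _) hn)] at h0
    have f1 : F ⟨k₀, x₀⟩ = S.card * A k₀ x₀ y₀ := by
      change ∑ g ∈ S, A k₀ x₀ (g • x₀) = _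
      rw [Finset.sum_congr rfl (g := fun _ => A k₀ x₀ y₀), Finset.sum_const, nsmul_eq_mul]
      intro g hg
      simp only [S, Finset.mem_filter, Finset.mem_univ, true_and] at hg
      rw [hg]
    have f2 : F ⟨k₀, inv k₀ x₀⟩ = S.card * A k₀ x₀ y₀ := by
      change ∑ g ∈ S, A k₀ (inv k₀ x₀) (g • inv k₀ x₀) = _
      rw [Finset.sum_congr rfl (g := fun _ => A k₀ x₀ y₀), Finset.sum_const, nsmul_eq_mul]
      intro g hg
      simp only [S, Finset.mem_filter, Finset.mem_univ, true_and] at hg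
      rw [hG, hg, hA1, hA2, neg_neg]
    have hS : 0 < S.card := by
      obtain ⟨g, hg⟩ := ht
      exact Finset.card_pos.2 ⟨g, by simp [S, hg]⟩
    rw [f1, f2] at h0
    have hS' : (S.card : ℝ) ≠ 0 := Nat.cast_ne_zero.2 hS.ne'
    have h2 : (S.card : ℝ) * (2 * A k₀ x₀ y₀ - C) = 0 := by linarith
    have h3 := (mul_eq_zero.1 h2).resolve_left hS'
    linarith
  have h2 := key x₀ ⟨1, one_smul _ _⟩
  have h3 := key (inv k₀ x₀) (h1 k₀ x₀)
  rw [hA2] at h3
  linarith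

end Pool.Agent.Run7.h142.LT
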