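import Pool.Agent.Y138.KC.Gen
import Pool.Agent.Run7.h142.LT.VanC
import Pool.Agent.Run7.h142.LT.Rig

/-!
# Relations between several Weil numbers of the same CM fields (helper142)
-/

set_option autoImplicit false
set_option linter.unusedSectionVars false

namespace Pool.Agent.Run7.h142.LT

open NumberField Polynomial Module Pool.Agent.TH121.KT

noncomputable section

variable {κ : Type} [Fintype κ] {E : κ → Type} [∀ k, Field (E k)] [∀ k, NumberField (E k)]
  [∀ k, IsCMField (E k)]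

/-- transport of embeddings -/
def tr {A : Type*} [Field A] {l k : κ} (h : l = k) (y : E k →+* A) : E l →+* A :=
  Eq.mpr (congrArg (fun m => (E m →+* A)) h) y

theorem tr_rfl {A : Type*} [Field A] {k : κ} (y : E k →+* A) : tr rfl y = y := rfl

theorem cj_ne {K : Type} [Field K] [NumberField K] [IsCMField K] {A : Type*} [Field A]
    (σ : K →+* A) : cj σ ≠ σ := by
  intro h
  have h2 : ∀ x : K, IsCMField.complexConj K x = x := by
    intro x
    exact σ.injective (RingHom.congr_fun h x)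
  exact IsCMField.complexConj_ne_one K (AlgEquiv.ext h2)

variable (E) in
/-- the action of an automorphism on the embeddings -/
def permHom (L : IntermediateField ℚ Qb) :
    L.fixingSubgroup →* (∀ k, Equiv.Perm (E k →+* Qb)) where
  toFun h := fun k => ⟨act h.1, act h.1⁻¹, act_inv_act h.1, act_act_inv h.1⟩
  map_one' := by
    funext k
    apply Equiv.ext
    intro y
    rfl
  map_mul' a b := by
    funext k
    apply Equiv.ext
    intro y
    rfl

variable (E) in
/-- the finite group of the permutations of the embeddings -/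
abbrev PG (L : IntermediateField ℚ Qb) : Type := (permHom E L).range

instance instActPG (L : IntermediateField ℚ Qb) (k : κ) : MulAction (PG E L) (E k →+* Qb) :=
  MulAction.compHom (E k →+* Qb) ((Pi.evalMonoidHom (fun k => Equiv.Perm (E k →+* Qb)) k).comp
    (permHom E L).range.subtype)

theorem smul_mk (L : IntermediateField ℚ Qb) (h : L.fixingSubgroup) (k : κ) (y : E k →+* Qb) :
    (⟨permHom E L h, h, rfl⟩ : PG E L) • y = act h.1 y := rfl

variable {p : ℕ} [Fact p.Prime] {ι : Qb →+* PadicAlgCl p} {r : ℕ} {f : Fin r → κ}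
  {α : ∀ i, E (f i)}

open Classical in
/-- the matrix of a relation -/
def AA (ι : Qb →+* PadicAlgCl p) (α : ∀ i, E (f i)) (w : Fin r → ℕ)
    (N : ∀ i, (E (f i) →+* Qb) → ℕ) (g : GQ) (k : κ) (y z : E k →+* Qb) : ℝ :=
  ∑ i, if h : f i = k then
    (w i : ℝ) * (odd (N i) (act g⁻¹ (tr h y)) : ℝ) * Real.log ‖ι (tr h z (α i))‖ else 0

theorem AA_left (w : Fin r → ℕ) (N : ∀ i, (E (f i) →+* Qb) → ℕ) (g : GQ) (k : κ)
    (y z : E k →+* Qb) : AA ι α w N g k (cj y) z = - AA ι α w N g k y z := by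
  classical
  unfold AA
  rw [← Finset.sum_neg_distrib]
  refine Finset.sum_congr rfl fun i _ => ?_
  by_cases h : f i = k
  · subst h
    rw [dif_pos rfl, dif_pos rfl, tr_rfl, tr_rfl, tr_rfl, act_cj, odd_cj]
    push_cast
    ring
  · rw [dif_neg h, dif_neg h, neg_zero]

theorem AA_right (hu : ∀ i (φ : E (f i) →+* ℂ), ‖φ (α i)‖ = 1) (w : Fin r → ℕ)
    (N : ∀ i, (E (f i) →+* Qb) → ℕ) (g : GQ) (k : κ)
    (y z : E k →+* Qb) : AA ι α w N g k y (cj z) = - AA ι α w N g k y z := by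
  classical
  unfold AA
  rw [← Finset.sum_neg_distrib]
  refine Finset.sum_congr rfl fun i _ => ?_
  by_cases h : f i = k
  · subst h
    rw [dif_pos rfl, dif_pos rfl, tr_rfl, tr_rfl, tr_rfl, cj_norm (hu i), Real.log_inv]
    ring
  · rw [dif_neg h, dif_neg h, neg_zero]

/-- the sum over the embeddings of all fields -/
theorem sum_AA (hu : ∀ i (φ : E (f i) →+* ℂ), ‖φ (α i)‖ = 1) (w : Fin r → ℕ)
    (N : ∀ i, (E (f i) →+* Qb) → ℕ) (g h : GQ) :
    ∑ x : Σ k, (E k →+* Qb), AA ι α w N g x.1 x.2 (act h x.2) =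
      2 * ∑ i, (w i : ℝ) * FF ι (α i) (N i) (h * g) := by
  classical
  rw [Fintype.sum_sigma]
  unfold AA
  have h1 : ∀ k : κ, ∑ y : E k →+* Qb, ∑ i, (if h' : f i = k then
      (w i : ℝ) * (odd (N i) (act g⁻¹ (tr h' y)) : ℝ) * Real.log ‖ι (tr h' (act h y) (α i))‖
      else 0) = ∑ i, ∑ y : E k →+* Qb, (if h' : f i = k then
      (w i : ℝ) * (odd (N i) (act g⁻¹ (tr h' y)) : ℝ) * Real.log ‖ι (tr h' (act h y) (α i))‖
      else 0) := fun k => Finset.sum_comm
  rw [Finset.sum_congr rfl fun k _ => h1 k, Finset.sum_comm, Finset.mul_sum]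
  refine Finset.sum_congr rfl fun i _ => ?_
  rw [Finset.sum_eq_single (f i)]
  · have h2 : ∀ y : E (f i) →+* Qb, (if h' : f i = f i then
        (w i : ℝ) * (odd (N i) (act g⁻¹ (tr h' y)) : ℝ) * Real.log ‖ι (tr h' (act h y) (α i))‖
        else 0) = (w i : ℝ) * ((odd (N i) (act g⁻¹ y) : ℝ) *
          Real.log ‖ι (act h y (α i))‖) := by
      intro y
      rw [dif_pos rfl, tr_rfl, tr_rfl]
      ring
    rw [Finset.sum_congr rfl fun y _ => h2 y, ← Finset.mul_sum]
    have h3 : ∑ y : E (f i) →+* Qb, (odd (N i) (act g⁻¹ y) : ℝ) *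
        Real.log ‖ι (act h y (α i))‖ =
        ∑ σ : E (f i) →+* Qb, (odd (N i) σ : ℝ) * Real.log ‖ι ((h * g) (σ (α i)))‖ := by
      refine (Fintype.sum_equiv ⟨act g, act g⁻¹, act_inv_act g, act_act_inv g⟩ _ _
        fun σ => ?_).symm
      change _ = (odd (N i) (act g⁻¹ (act g σ)) : ℝ) * Real.log ‖ι (act h (act g σ) (α i))‖
      rw [act_inv_act]
      rfl
    rw [h3, two_FF (hu i)]
    ring
  · intro k _ hk
    refine Finset.sum_eq_zero fun y _ => ?_
    rw [dif_neg (Ne.symm hk)]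
  · intro h0
    exact absurd (Finset.mem_univ _) h0

/-- **Only trivial relations.** -/
theorem odd_zero {L : IntermediateField ℚ Qb} (hE : NoRigidPairsOver E L)
    (hα : IndependentValuations p f α) {w : Fin r → ℕ} (hw : ∀ i, 0 < w i)
    (N : ∀ i, (E (f i) →+* Qb) → ℕ)
    (hinv : ∀ h : GQ, (∀ x ∈ L, h x = x) → ∀ g : GQ,
      ∑ i, (w i : ℝ) * FF ι (α i) (N i) (h * g) = ∑ i, (w i : ℝ) * FF ι (α i) (N i) g)
    (i : Fin r) (σ : E (f i) →+* Qb) : odd (N i) σ = 0 := by
  classical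
  have hu := hα.unitary
  -- the diagonal entries vanish
  have hdiag : ∀ (g : GQ) (k : κ) (y : E k →+* Qb), AA ι α w N g k y y = 0 := by
    intro g k y
    refine vanishC (G := PG E L) (fun k => (E k →+* Qb)) (fun k => cj) (fun k x => cj_ne x)
      ?_ ?_ ?_ (AA ι α w N g) (fun k x y => AA_left w N g k x y)
      (fun k x y => AA_right hu w N g k x y) (2 * ∑ i, (w i : ℝ) * FF ι (α i) (N i) g) ?_ k y
    · rintro ⟨_, h, rfl⟩ k x
      exact act_cj h.1 x
    · intro k x
      obtain ⟨h, h1, h2⟩ := hE.single ⟨k, x⟩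
      refine ⟨⟨permHom E L ⟨h, (IntermediateField.mem_fixingSubgroup_iff _ _).2 h1⟩, _, rfl⟩, ?_⟩
      rw [smul_mk]
      ext z
      exact h2 z
    · rintro ⟨k, x⟩ ⟨l, y⟩ h3 h4
      obtain ⟨h, h1, h2, h5⟩ := hE.pair ⟨k, x⟩ ⟨l, y⟩ h3 h4
      refine ⟨⟨permHom E L ⟨h, (IntermediateField.mem_fixingSubgroup_iff _ _).2 h1⟩, _, rfl⟩,
        ?_, ?_⟩
      · rw [smul_mk]
        ext z
        exact h2 z
      · rw [smul_mk]
        ext z
        exact h5 z
    · rintro ⟨_, h, rfl⟩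
      have h1 := sum_AA (ι := ι) hu w N g h.1
      rw [hinv h.1 ((IntermediateField.mem_fixingSubgroup_iff _ _).1 h.2)] at h1
      exact h1
  -- a family of embeddings
  have hne : ∀ k, Nonempty (E k →+* Qb) := fun k =>
    ⟨(IsAlgClosed.lift : E k →ₐ[ℚ] Qb).toRingHom⟩
  let φ : ∀ k, E k →+* Qb := Function.update (fun k => (hne k).some) (f i) σ
  have hφ : φ (f i) = σ := Function.update_self _ _ _
  have hc := hα.indep (fun j => (w j : ℤ) * odd (N j) (φ (f j))) ?_
  · have h1 := congrFun hc i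
    simp only [hφ, Pi.zero_apply] at h1
    rcases mul_eq_zero.1 h1 with h2 | h2
    · have := hw i
      omega
    · exact h2
  · intro τ
    have hex : ∀ k, ∃ ρ : E k →+* Qb, ι.comp ρ = τ k := fun k => exists_lift ι (τ k)
    choose ρ hρ using hex
    have hex2 : ∀ k, ∃ g : GQ, act g (φ k) = ρ k := fun k => exists_act_eq _ _
    choose g hg using hex2
    have h0 : ∑ k, AA ι α w N (g k) k (ρ k) (ρ k) = 0 :=
      Finset.sum_eq_zero fun k _ => hdiag _ _ _
    unfold AA at h0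
    rw [Finset.sum_comm] at h0
    rw [← h0]
    refine Finset.sum_congr rfl fun j _ => ?_
    rw [Finset.sum_eq_single (f j)]
    · rw [dif_pos rfl, tr_rfl, ← hρ (f j)]
      have h2 : act (g (f j))⁻¹ (ρ (f j)) = φ (f j) := by
        rw [← hg (f j), act_inv_act]
      rw [h2]
      push_cast
      rfl
    · intro k _ hk
      rw [dif_neg (Ne.symm hk)]
    · intro h1
      exact absurd (Finset.mem_univ _) h1

/-- **Relations are trivial**, with an integral power and a rational factor. -/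
theorem balanced_rat_fam {N : (Σ i, (E (f i) →+* Qb)) → ℕ} {w : Fin r → ℕ} {W : ℤ} {β : Qb}
    {x₀ : ℚ} (hx₀ : x₀ ≠ 0) (hβ0 : β ≠ 0)
    (hrel : ∏ x : Σ i, (E (f i) →+* Qb), (x.2 (α x.1)) ^ (w x.1 * N x) = β ^ W * (x₀ : Qb))
    (hw : ∀ i, 0 < w i) {L : IntermediateField ℚ Qb} {Q : ℚ[X]}
    (hL : SlopesFixed p ι L Q) (hβ : aeval β Q = 0) (hE : NoRigidPairsOver E L)
    (hα : IndependentValuations p f α)
    (x : Σ i, (E (f i) →+* Qb)) : N x = N (bar (K := fun i => E (f i)) x) := by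
  classical
  let NN : ∀ i, (E (f i) →+* Qb) → ℕ := fun i σ => N ⟨i, σ⟩
  have hsum : ∀ g : GQ, ∑ i, (w i : ℝ) * FF ι (α i) (NN i) g =
      W * Real.log ‖ι (g β)‖ + Real.log ‖ι (x₀ : Qb)‖ := by
    intro g
    have h1 := congrArg (fun z => Real.log ‖ι (g z)‖) hrel
    simp only [map_prod, map_pow, norm_prod, norm_pow, map_mul, map_zpow₀, norm_mul, norm_zpow,
      map_ratCast] at h1
    rw [Real.log_mul, Real.log_zpow, Real.log_prod] at h1
    rotate_left
    · intro x _
      exact pow_ne_zero _ (norm_pos' (hα.unitary x.1) (act g x.2)).ne'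
    · refine zpow_ne_zero _ ?_
      rw [norm_ne_zero_iff, ne_eq, map_eq_zero, map_eq_zero]
      exact hβ0
    · rw [norm_ne_zero_iff]
      exact Rat.cast_ne_zero.2 hx₀
    rw [map_ratCast, ← h1, Fintype.sum_sigma]
    refine Finset.sum_congr rfl fun i _ => ?_
    unfold FF
    rw [Finset.mul_sum]
    refine Finset.sum_congr rfl fun σ _ => ?_
    rw [Real.log_pow]
    push_cast
    ring
  obtain ⟨i, σ⟩ := x
  have h1 := odd_zero (ι := ι) hE hα hw NN (fun h hh g => by
    rw [hsum, hsum]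
    have hgβ : aeval (g β) Q = 0 := by
      rw [Polynomial.aeval_algHom_apply g β Q, hβ, map_zero]
    have h3 : ‖ι ((h * g) β)‖ = ‖ι (g β)‖ := hL h hh (g β) hgβ
    rw [h3]) i σ
  unfold odd at h1
  change N ⟨i, σ⟩ = N ⟨i, cj σ⟩
  change (N ⟨i, σ⟩ : ℤ) - N ⟨i, cj σ⟩ = 0 at h1
  omega

/-- **Balance.** If a product of conjugates times a power of a root of `Q` is rational, the
multiplicities are invariant under the complex conjugations. -/
theorem balanced_of_relation_fam {Ω : Type*} [Field Ω] [CharZero Ω] [IsAlgClosed Ω]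
    (ι : Qb →+* PadicAlgCl p)
    (n : ∀ i, (E (f i) →+* Ω) → ℕ) {w : Fin r → ℕ} (hw : ∀ i, 0 < w i) {W : ℕ} {β : Ω} {x₀ : ℚ}
    (hx₀ : x₀ ≠ 0) (hβ0 : β ≠ 0)
    (hrel : letterProd (K := fun i => E (f i)) α w n * β ^ W = (x₀ : Ω))
    {Q : ℚ[X]} (hQ : Q ≠ 0) (hβ : aeval β Q = 0) {L : IntermediateField ℚ Qb}
    (hL : SlopesFixed p ι L Q) (hE : NoRigidPairsOver E L)
    (hα : IndependentValuations p f α) (i : Fin r) (σ : E (f i) →+* Ω) :
    n i σ = n i (cj σ) := by
  classical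
  let τ : Qb →+* Ω := (IsAlgClosed.lift : Qb →ₐ[ℚ] Ω).toRingHom
  obtain ⟨β', hβ', hτβ⟩ := exists_root τ hQ hβ
  have hbij : ∀ i, Function.Bijective (fun ρ : E (f i) →+* Qb => τ.comp ρ) := by
    intro i
    constructor
    · intro ρ ρ' h
      ext x
      exact τ.injective (RingHom.congr_fun h x)
    · intro σ
      obtain ⟨ρ, hρ⟩ := exists_lift τ σ
      exact ⟨ρ, hρ⟩
  let N : (Σ i, (E (f i) →+* Qb)) → ℕ := fun x => n x.1 (τ.comp x.2)
  have hprod : letterProd (K := fun i => E (f i)) α w n =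
      τ (∏ x : Σ i, (E (f i) →+* Qb), (x.2 (α x.1)) ^ (w x.1 * N x)) := by
    rw [map_prod, Fintype.prod_sigma]
    unfold letterProd
    refine Finset.prod_congr rfl fun i _ => ?_
    refine (Fintype.prod_equiv (Equiv.ofBijective _ (hbij i)) _ _ fun ρ => ?_).symm
    rw [map_pow]
    rfl
  have hβ0' : β' ≠ 0 := by
    rintro rfl
    rw [map_zero] at hτβ
    exact hβ0 hτβ.symm
  have hbal := balanced_rat_fam (N := N) (w := w) (W := -(W : ℤ)) (β := β') (x₀ := x₀) hx₀ hβ0'
    ?_ hw hL hβ' hE hα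
  · obtain ⟨ρ, rfl⟩ := (hbij i).2 σ
    exact hbal ⟨i, ρ⟩
  · apply τ.injective
    rw [← hprod, map_mul, map_zpow₀, hτβ, map_ratCast, ← hrel, zpow_neg, zpow_natCast]
    field_simp

end

end Pool.Agent.Run7.h142.LT
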